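import Pool.Agent.MP_696f7f_ag.H96.SFinal2
import Pool.Agent.MP_696f7f_ag.H96.SLin
import Pool.Agent.MP_696f7f_ag.H96.PMain
import Pool.Agent.MP_696f7f_ag.H96.TMain
import Pool.Agent.MP_696f7f_ag.H96.WMain
import Pool.Agent.MP_696f7f_ag.H96.AMain

namespace Pool.Agent.Results.MP_696f7f_ag.RealFields

open Pool.Agent.MP_696f7f_ag.H96

/-- Over a field `k` that embeds in the real numbers, and for a degree `d ≥ 1`: the classes
`([H n] - [P^n]) / L^n` converge in the completed Grothendieck ring for every choice of smooth
degree `d` hypersurfaces `H n` in projective `(n+1)`-space if and only if `d = 1`. -/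
theorem result (k : Type) [Field k] [CharZero k] (hk : Nonempty (k →+* ℝ)) (d : ℕ) (hd : 1 ≤ d) :
    (∀ H : ℕ → Var k, (∀ n, IsSmoothHyp (n + 1) d (H n)) →
      Converges (fun n => clsM (H n) n - clsM (Var.proj k n) n)) ↔ d = 1 := by
  constructor
  · intro h
    by_contra hd1
    obtain ⟨H, hH, hc⟩ :=
      final_real (betaHypStmt_of princStmt cohStmt wStmt) k hk d (by omega)
    exact hc (h H hH)
  · rintro rfl H hH
    have : (fun n => clsM (H n) n - clsM (Var.proj k n) n) = fun _ => 0 := by
      funext n
      unfold clsM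
      rw [cls_of_deg_one (hH n), sub_self]
    rw [this]
    exact converges_zero

end Pool.Agent.Results.MP_696f7f_ag.RealFields
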